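import Pool.Agent.N848.AW.Stm

/-!
# Project AW (helper848), part LAS: the law for the two systems from the general law (helper701)
-/

set_option autoImplicit false
set_option linter.unusedVariables false

open scoped Classical

namespace Pool.Agent.N848.AW

open Finset
open Pool.Agent.R426.QK
open Pool.Agent.R426

/-! ### Auxiliary lemmas -/

namespace LAS

set_option linter.unusedSectionVars false

variable {U J : Type} [Fintype U] [Fintype J]

lemma z2 (a : ZMod 2) : a + a = 0 := CharTwo.add_self_eq_zero a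

lemma z2m (a : ZMod 2) : a * a = a := by
  revert a; decide

lemma zc (c : ZMod 2) : c = 0 ∨ c = 1 := by
  revert c; decide

lemma z2e {a b : ZMod 2} (h : a + b = 0) : a = b := by
  revert a b; decide

/-- the matrix of a system -/
noncomputable def NN (M : U ⊕ J → U ⊕ J → ZMod 2) (d f e : U ⊕ J → ZMod 2) (p q : U ⊕ J) : ZMod 2 :=
  M p q + (if p = q then ∑ r, M p r + d p else 0) + f p * e q

lemma NN_row (M : U ⊕ J → U ⊕ J → ZMod 2) (d f e x : U ⊕ J → ZMod 2) (p : U ⊕ J) :
    ∑ q, NN M d f e p q * x q = ∑ q, M p q * (x p + x q) + d p * x p + f p * ∑ q, e q * x q := by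
  simp only [NN, add_mul, sum_add_distrib, ite_mul, zero_mul, sum_ite_eq, mem_univ, if_true,
    mul_add, mul_assoc, ← mul_sum, sum_mul]
  ring

lemma NN_col (M : U ⊕ J → U ⊕ J → ZMod 2) (d f e : U ⊕ J → ZMod 2) (q : U ⊕ J) :
    ∑ p, NN M d f e p q = ∑ p, (M p q + M q p) + d q + (∑ p, f p) * e q := by
  simp only [NN, sum_add_distrib, sum_ite_eq', mem_univ, if_true, sum_mul]
  ring

variable (tU : U → ZMod 2) (tJ : J → ZMod 2) (A : U → U → ZMod 2) (B : U → J → ZMod 2)
  (R : J → J → ZMod 2)

lemma MM_row_inl (x : U ⊕ J → ZMod 2) (u : U) :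
    ∑ q, MM tU tJ A B 0 (Sum.inl u) q * (x (Sum.inl u) + x q) =
      Lp univ (MM tU tJ A B R) x (Sum.inl u) := by
  simp only [Lp, Fintype.sum_sum_type, MM]

lemma MM_row_inr (x : U ⊕ J → ZMod 2) (k : J) :
    ∑ q, MM tU tJ A B 0 (Sum.inr k) q * (x (Sum.inr k) + x q) +
      ∑ l, R k l * (x (Sum.inr k) + x (Sum.inr l)) =
      Lp univ (MM tU tJ A B R) x (Sum.inr k) := by
  simp only [Lp, Fintype.sum_sum_type, MM, Pi.zero_apply, zero_mul, sum_const_zero, add_zero]

/-- the row of the system -/
lemma rowG_NN (d f e x : U ⊕ J → ZMod 2) (p : U ⊕ J) :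
    rowG (NN (MM tU tJ A B 0) d f e) R x p =
      Lp univ (MM tU tJ A B R) x p + d p * x p + f p * dt univ e x := by
  cases p with
  | inl u =>
    rw [rowG, NN_row, MM_row_inl tU tJ A B R]
    rfl
  | inr k =>
    rw [rowG, NN_row, ← MM_row_inr tU tJ A B R]
    simp only [dt]
    ring

lemma sum_MM (hA : ∀ u v, u ≠ v → A u v + A v u = tU u * tU v)
    (h0 : ∑ u, tU u + ∑ j, tJ j = 0) (u : U) :
    ∑ p, (MM tU tJ A B 0 p (Sum.inl u) + MM tU tJ A B 0 (Sum.inl u) p) = tU u := by
  have h1 : ∀ v, A v u + A u v = tU u * tU v + (if v = u then tU u else 0) := by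
    intro v
    by_cases h : v = u
    · subst h
      rw [if_pos rfl, z2m, z2, z2]
    · rw [if_neg h, hA v u h, mul_comm, add_zero]
  have h2 : ∀ j, B u j + tU u * tJ j + B u j = tU u * tJ j := by
    intro j
    have := z2 (B u j)
    linear_combination this
  rw [Fintype.sum_sum_type]
  simp only [MM, h1, h2]
  simp only [sum_add_distrib, ← mul_sum, sum_ite_eq', mem_univ, if_true]
  linear_combination (tU u) * h0

lemma sum_MM' (l : J) :
    ∑ p, (MM tU tJ A B 0 p (Sum.inr l) + MM tU tJ A B 0 (Sum.inr l) p) =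
      tJ l * ∑ u, tU u := by
  have h2 : ∀ u, B u l + (B u l + tU u * tJ l) = tU u * tJ l := by
    intro u
    have := z2 (B u l)
    linear_combination this
  simp only [Fintype.sum_sum_type, MM, h2, Pi.zero_apply, add_zero, sum_const_zero, mul_sum]
  exact sum_congr rfl fun u _ => mul_comm _ _

/-- the conditions for the systems of the first two kinds -/
lemma hypG_NN (hA : ∀ u v, u ≠ v → A u v + A v u = tU u * tU v)
    (h0 : ∑ u, tU u + ∑ j, tJ j = 0) (d f e : U ⊕ J → ZMod 2) (a b : J → ZMod 2)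
    (hright : ∀ p, d p + f p * ∑ q, e q = 0)
    (hleft : ∀ q, d q + (∑ p, f p) * e q = Sum.elim tU tJ q)
    (halt : ∀ k l : J, k ≠ l → f (Sum.inr k) * e (Sum.inr l) + f (Sum.inr l) * e (Sum.inr k) =
      a k * b l + b k * a l)
    (hrows : ∀ w : U → ZMod 2, w ≠ 0 → ∃ l : J,
      ∑ u, w u * (B u l + f (Sum.inl u) * e (Sum.inr l)) ≠ 0)
    (hcols : ∀ c : U → ZMod 2, c ≠ 0 → ∃ k : J,
      ∑ u, (B u k + tU u * tJ k + f (Sum.inr k) * e (Sum.inl u)) * c u ≠ 0) :
    HypG (fun _ => 1) (NN (MM tU tJ A B 0) d f e) tJ a b := by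
  have hone : ∀ l, onev (U := U) (J := J) (fun _ => 1) l = 1 := by
    intro l; cases l <;> rfl
  have h0' : ∑ u, tU u = ∑ j, tJ j := z2e h0
  refine ⟨?_, ?_, ?_, ?_, ?_, ?_⟩
  · intro k
    simp only [hone]
    have := NN_row (MM tU tJ A B 0) d f e (fun _ => 1) k
    simp only [z2, mul_zero, sum_const_zero, mul_one, zero_add] at this
    simp only [mul_one]
    rw [this]
    exact hright k
  · intro u
    simp only [hone, one_mul]
    rw [NN_col, sum_MM tU tJ A B hA h0 u, add_assoc, hleft]
    exact z2 _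
  · intro l
    simp only [hone, one_mul]
    rw [NN_col, sum_MM' tU tJ A B l, add_assoc, hleft, h0', mul_add, mul_one]
    rfl
  · intro k l hkl
    simp only [NN, MM, Sum.inr.injEq, hkl, hkl.symm, if_false, Pi.zero_apply, zero_add, add_zero]
    exact halt k l hkl
  · intro w hw
    obtain ⟨l, hl⟩ := hrows w hw
    refine ⟨l, ?_⟩
    simpa only [NN, MM, reduceCtorEq, if_false, add_zero] using hl
  · intro c hc
    obtain ⟨k, hk⟩ := hcols c hc
    refine ⟨k, ?_⟩
    simpa only [NN, MM, reduceCtorEq, if_false, add_zero] using hk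

lemma cst_iff (x : U ⊕ J → ZMod 2) :
    Cst univ x ↔ x = 0 ∨ x = onev (fun _ => 1) := by
  constructor
  · rintro ⟨c, hc⟩
    have hc2 : c = 0 ∨ c = 1 := zc c
    rcases hc2 with rfl | rfl
    · left; funext p; exact hc p (mem_univ p)
    · right; funext p; rw [hc p (mem_univ p)]; cases p <;> rfl
  · rintro (rfl | rfl)
    · exact ⟨0, fun p _ => rfl⟩
    · exact ⟨1, fun p _ => by cases p <;> rfl⟩

/-! the third system -/

/-- the inclusion -/
def io : U ⊕ J → Option U ⊕ J
  | Sum.inl u => Sum.inl (some u)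
  | Sum.inr j => Sum.inr j

lemma sum_io (F : Option U ⊕ J → ZMod 2) :
    ∑ l, F l = F (Sum.inl none) + ∑ l, F (io l) := by
  simp only [Fintype.sum_sum_type, Fintype.sum_option, io]
  ring

/-- the matrix of the third system -/
def NC (N : U ⊕ J → U ⊕ J → ZMod 2) (t v : U ⊕ J → ZMod 2) : Option U ⊕ J → Option U ⊕ J → ZMod 2
  | Sum.inl none, Sum.inl none => 0
  | Sum.inl none, Sum.inl (some u) => t (Sum.inl u)
  | Sum.inl none, Sum.inr l => t (Sum.inr l)
  | Sum.inl (some u), Sum.inl none => v (Sum.inl u)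
  | Sum.inr k, Sum.inl none => v (Sum.inr k)
  | Sum.inl (some u), Sum.inl (some v) => N (Sum.inl u) (Sum.inl v)
  | Sum.inl (some u), Sum.inr l => N (Sum.inl u) (Sum.inr l)
  | Sum.inr k, Sum.inl (some v) => N (Sum.inr k) (Sum.inl v)
  | Sum.inr k, Sum.inr l => N (Sum.inr k) (Sum.inr l)

lemma NC_io (N : U ⊕ J → U ⊕ J → ZMod 2) (t v : U ⊕ J → ZMod 2) (p q : U ⊕ J) :
    NC N t v (io p) (io q) = N p q := by
  cases p <;> cases q <;> rfl

lemma NC_n0 (N : U ⊕ J → U ⊕ J → ZMod 2) (t v : U ⊕ J → ZMod 2) (q : U ⊕ J) :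
    NC N t v (Sum.inl none) (io q) = t q := by
  cases q <;> rfl

lemma NC_0n (N : U ⊕ J → U ⊕ J → ZMod 2) (t v : U ⊕ J → ZMod 2) (p : U ⊕ J) :
    NC N t v (io p) (Sum.inl none) = v p := by
  cases p <;> rfl

lemma NC_nn (N : U ⊕ J → U ⊕ J → ZMod 2) (t v : U ⊕ J → ZMod 2) :
    NC N t v (Sum.inl none) (Sum.inl none) = 0 := rfl

/-- the vector one for the third system -/
def on3 : Option U → ZMod 2
  | none => 0
  | some _ => 1

lemma onev3 (q : U ⊕ J) : onev (J := J) (on3 (U := U)) (io q) = 1 := by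
  cases q <;> rfl

lemma onev3n : onev (J := J) (on3 (U := U)) (Sum.inl none) = 0 := rfl

lemma rowG_NC_n (N : U ⊕ J → U ⊕ J → ZMod 2) (t v : U ⊕ J → ZMod 2) (x : Option U ⊕ J → ZMod 2) :
    rowG (NC N t v) R x (Sum.inl none) = dt univ t (fun p => x (io p)) := by
  rw [rowG, sum_io]
  simp only [NC_nn, NC_n0, zero_mul, zero_add, dt]

lemma rowG_NC (N : U ⊕ J → U ⊕ J → ZMod 2) (t v : U ⊕ J → ZMod 2) (x : Option U ⊕ J → ZMod 2)
    (p : U ⊕ J) :
    rowG (NC N t v) R x (io p) =
      rowG N R (fun p => x (io p)) p + x (Sum.inl none) * v p := by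
  cases p with
  | inl u =>
    have h1 : NC N t v (Sum.inl (some u)) (Sum.inl none) = v (Sum.inl u) := rfl
    have h2 : ∀ q, NC N t v (Sum.inl (some u)) (io q) = N (Sum.inl u) q :=
      fun q => NC_io N t v (Sum.inl u) q
    rw [io, rowG, rowG, sum_io, h1]
    simp only [h2]
    ring
  | inr k =>
    have h1 : NC N t v (Sum.inr k) (Sum.inl none) = v (Sum.inr k) := rfl
    have h2 : ∀ q, NC N t v (Sum.inr k) (io q) = N (Sum.inr k) q :=
      fun q => NC_io N t v (Sum.inr k) q
    have h3 : ∀ j : J, io (U := U) (Sum.inr j) = Sum.inr j := fun _ => rfl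
    rw [io, rowG, rowG, sum_io, h1]
    simp only [h2, h3]
    ring

/-- the third system, from the first one -/
lemma hypG_NC (N : U ⊕ J → U ⊕ J → ZMod 2) (gJ hJ : J → ZMod 2) (gU hU : U → ZMod 2)
    (h0 : ∑ u, tU u + ∑ j, tJ j = 0) (hg : ∑ u, gU u + ∑ j, gJ j = 1)
    (hh : ∑ u, hU u + ∑ j, hJ j = 1)
    (H : HypG (fun _ => 1) N tJ gJ tJ)
    (hrow : ∀ u l, N (Sum.inl u) (Sum.inr l) = B u l + gU u * tJ l)
    (hcol : ∀ k u, N (Sum.inr k) (Sum.inl u) = B u k + tU u * tJ k + gJ k * tU u)
    (hnd : NdL tJ gJ hJ B) :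
    HypG on3 (NC N (Sum.elim tU tJ) (Sum.elim tU tJ + Sum.elim gU gJ + Sum.elim hU hJ)) tJ gJ tJ := by
  have hone : ∀ l, onev (U := U) (J := J) (fun _ => 1) l = 1 := by
    intro l; cases l <;> rfl
  have st : ∑ q : U ⊕ J, Sum.elim tU tJ q = 0 := by
    rw [Fintype.sum_sum_type]; exact h0
  have sg : ∑ q : U ⊕ J, Sum.elim gU gJ q = 1 := by
    rw [Fintype.sum_sum_type]; exact hg
  have sh : ∑ q : U ⊕ J, Sum.elim hU hJ q = 1 := by
    rw [Fintype.sum_sum_type]; exact hh
  refine ⟨?_, ?_, ?_, ?_, ?_, ?_⟩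
  · intro k
    rw [sum_io]
    simp only [onev3, onev3n, mul_zero, mul_one, zero_add]
    rcases k with (_ | u) | j
    · simp only [NC_n0]
      exact st
    · have h := H.right (Sum.inl u)
      simp only [hone, mul_one] at h
      have h2 := fun q => NC_io N (Sum.elim tU tJ)
        (Sum.elim tU tJ + Sum.elim gU gJ + Sum.elim hU hJ) (Sum.inl u) q
      rw [← h]
      exact sum_congr rfl fun q _ => h2 q
    · have h := H.right (Sum.inr j)
      simp only [hone, mul_one] at h
      have h2 := fun q => NC_io N (Sum.elim tU tJ)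
        (Sum.elim tU tJ + Sum.elim gU gJ + Sum.elim hU hJ) (Sum.inr j) q
      rw [← h]
      exact sum_congr rfl fun q _ => h2 q
  · intro u
    rw [sum_io]
    simp only [onev3, onev3n, one_mul, zero_mul, zero_add]
    rcases u with _ | u
    · simp only [NC_0n, Pi.add_apply, sum_add_distrib, st, sg, sh]
      decide
    · have h := H.leftU u
      simp only [hone, one_mul] at h
      rw [← h]
      exact sum_congr rfl fun q _ => NC_io N _ _ q (Sum.inl u)
  · intro l
    rw [sum_io]
    simp only [onev3, onev3n, one_mul, zero_mul, zero_add]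
    have h := H.leftJ l
    simp only [hone, one_mul] at h
    rw [← h]
    exact sum_congr rfl fun q _ => NC_io N _ _ q (Sum.inr l)
  · exact fun k l hkl => H.alt k l hkl
  · intro w hw
    have key : ∀ l, ∑ u, w u * NC N (Sum.elim tU tJ)
        (Sum.elim tU tJ + Sum.elim gU gJ + Sum.elim hU hJ) (Sum.inl u) (Sum.inr l) =
        ∑ u, w (some u) * B u l + (w none + ∑ u, w (some u) * gU u) * tJ l + 0 * gJ l +
          0 * hJ l := by
      intro l
      rw [Fintype.sum_option]
      simp only [NC, hrow, Sum.elim_inr, mul_add, sum_add_distrib, add_mul, sum_mul, zero_mul,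
        add_zero, mul_assoc]
      ring
    obtain ⟨l, hl⟩ := hnd (fun u => w (some u)) (w none + ∑ u, w (some u) * gU u) 0 0 (by
      by_cases hz : ∃ u, w (some u) ≠ 0
      · exact Or.inl hz
      · push Not at hz
        right; left
        simp only [hz, zero_mul, sum_const_zero, add_zero]
        intro hn
        apply hw
        funext o
        cases o with
        | none => exact hn
        | some u => exact hz u)
    exact ⟨l, by rw [key l]; exact hl⟩
  · intro c hc
    have key : ∀ k, ∑ u, NC N (Sum.elim tU tJ)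
        (Sum.elim tU tJ + Sum.elim gU gJ + Sum.elim hU hJ) (Sum.inr k) (Sum.inl u) * c u =
        ∑ u, c (some u) * B u k + (c none + ∑ u, c (some u) * tU u) * tJ k +
          (c none + ∑ u, c (some u) * tU u) * gJ k + c none * hJ k := by
      intro k
      rw [Fintype.sum_option]
      simp only [NC, hcol, Sum.elim_inr, Pi.add_apply, sum_add_distrib, add_mul, sum_mul]
      have e1 : ∑ u, B u k * c (some u) = ∑ u, c (some u) * B u k :=
        sum_congr rfl fun u _ => mul_comm _ _
      have e2 : ∑ u, tU u * tJ k * c (some u) = ∑ u, c (some u) * tU u * tJ k :=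
        sum_congr rfl fun u _ => by ring
      have e3 : ∑ u, gJ k * tU u * c (some u) = ∑ u, c (some u) * tU u * gJ k :=
        sum_congr rfl fun u _ => by ring
      rw [e1, e2, e3]
      ring
    obtain ⟨l, hl⟩ := hnd (fun u => c (some u)) (c none + ∑ u, c (some u) * tU u)
      (c none + ∑ u, c (some u) * tU u) (c none) (by
      by_cases hz : ∃ u, c (some u) ≠ 0
      · exact Or.inl hz
      · push Not at hz
        right; right; right
        intro hn
        apply hc
        funext o
        cases o with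
        | none => exact hn
        | some u => exact hz u)
    exact ⟨l, by rw [key l]; exact hl⟩

lemma NN_inlr (M : U ⊕ J → U ⊕ J → ZMod 2) (d f e : U ⊕ J → ZMod 2) (u : U) (l : J) :
    NN M d f e (Sum.inl u) (Sum.inr l) = M (Sum.inl u) (Sum.inr l) +
      f (Sum.inl u) * e (Sum.inr l) := by
  simp only [NN, reduceCtorEq, if_false, add_zero]

lemma NN_inrl (M : U ⊕ J → U ⊕ J → ZMod 2) (d f e : U ⊕ J → ZMod 2) (u : U) (l : J) :
    NN M d f e (Sum.inr l) (Sum.inl u) = M (Sum.inr l) (Sum.inl u) +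
      f (Sum.inr l) * e (Sum.inl u) := by
  simp only [NN, reduceCtorEq, if_false, add_zero]

end LAS

open LAS

lemma LAS_ext_add {J : Type} [Fintype J] [LinearOrder J] (t : J → ZMod 2) (α : prs J → ZMod 2)
    (k l : J) (h : k ≠ l) : ext t α k l + ext t α l k = t k * t l := by
  have hm : ∀ a b : J, (a, b) ∈ prs J ↔ a < b := by
    intro a b; simp [prs]
  rcases lt_or_gt_of_ne h with hkl | hlk
  · have h1 : (k, l) ∈ prs J := (hm k l).2 hkl
    have h2 : (l, k) ∉ prs J := fun h' => absurd ((hm l k).1 h') (not_lt.2 hkl.le)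
    simp only [Pool.Agent.R426.QK.ext, h1, h2, dif_pos, dif_neg, not_false_eq_true]
    have := z2 (α ⟨(k, l), h1⟩)
    linear_combination this
  · have h1 : (l, k) ∈ prs J := (hm l k).2 hlk
    have h2 : (k, l) ∉ prs J := fun h' => absurd ((hm k l).1 h') (not_lt.2 hlk.le)
    simp only [Pool.Agent.R426.QK.ext, h1, h2, dif_pos, dif_neg, not_false_eq_true]
    have := z2 (α ⟨(l, k), h1⟩)
    linear_combination this

theorem t_LAS : S_LAS := by
  intro hX hL ε hε
  obtain ⟨V₀, hV⟩ := hL (2 * ε / 3) (by positivity)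
  refine ⟨V₀ + 4, ?_⟩
  intro U J _ _ _ tU gU hU tJ gJ hJ A B hcard h0 hg hh hA hnd
  have st : ∑ q : U ⊕ J, Sum.elim tU tJ q = 0 := by
    rw [Fintype.sum_sum_type]; exact h0
  have sg : ∑ q : U ⊕ J, Sum.elim gU gJ q = 1 := by
    rw [Fintype.sum_sum_type]; exact hg
  have sh : ∑ q : U ⊕ J, Sum.elim hU hJ q = 1 := by
    rw [Fintype.sum_sum_type]; exact hh
  -- the hypotheses of XOR
  have hyp : ∀ α : prs J → ZMod 2, Hyp (univ : Finset (U ⊕ J)) (MM tU tJ A B (ext tJ α))
      (Sum.elim tU tJ) (Sum.elim gU gJ) (Sum.elim hU hJ) := by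
    intro α
    refine ⟨?_, st, sg, sh⟩
    intro p _ q _ hpq
    rcases p with u | k <;> rcases q with v | l
    · simp only [MM, Sum.elim_inl]
      exact hA u v (fun h => hpq (by rw [h]))
    · simp only [MM, Sum.elim_inl, Sum.elim_inr]
      have := z2 (B u l)
      linear_combination this
    · simp only [MM, Sum.elim_inl, Sum.elim_inr]
      have := z2 (B v k)
      linear_combination this
    · simp only [MM, Sum.elim_inr]
      exact LAS_ext_add tJ α k l (fun h => hpq (by rw [h]))
  -- the first system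
  have HA : HypG (fun _ : U => 1) (NN (MM tU tJ A B 0) 0 (Sum.elim gU gJ) (Sum.elim tU tJ))
      tJ gJ tJ := by
    refine hypG_NN tU tJ A B hA h0 _ _ _ _ _ ?_ ?_ ?_ ?_ ?_
    · intro p; rw [st]; simp
    · intro q; rw [sg]; simp
    · intro k l _
      simp only [Sum.elim_inr]
      ring
    · intro w hw
      obtain ⟨l, hl⟩ := hnd w (∑ u, w u * gU u) 0 0 (Or.inl (by
        by_contra hcon
        push Not at hcon
        exact hw (funext hcon)))
      refine ⟨l, ?_⟩
      convert hl using 1
      simp only [Sum.elim_inl, Sum.elim_inr, mul_add, sum_add_distrib, sum_mul, zero_mul, add_zero,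
        mul_assoc]
    · intro c hc
      obtain ⟨l, hl⟩ := hnd c (∑ u, c u * tU u) (∑ u, c u * tU u) 0 (Or.inl (by
        by_contra hcon
        push Not at hcon
        exact hc (funext hcon)))
      refine ⟨l, ?_⟩
      convert hl using 1
      simp only [Sum.elim_inl, Sum.elim_inr, add_mul, sum_add_distrib, sum_mul, zero_mul, add_zero]
      congr 1
      · congr 1
        · exact sum_congr rfl fun u _ => by ring
        · exact sum_congr rfl fun u _ => by ring
      · exact sum_congr rfl fun u _ => by ring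
  have HB : HypG (fun _ : U => 1)
      (NN (MM tU tJ A B 0) (Sum.elim tU tJ) (Sum.elim tU tJ) (Sum.elim hU hJ)) tJ tJ hJ := by
    refine hypG_NN tU tJ A B hA h0 _ _ _ _ _ ?_ ?_ ?_ ?_ ?_
    · intro p; rw [sh, mul_one]; exact z2 _
    · intro q; rw [st]; simp
    · intro k l _
      simp only [Sum.elim_inr]
      ring
    · intro w hw
      obtain ⟨l, hl⟩ := hnd w 0 0 (∑ u, w u * tU u) (Or.inl (by
        by_contra hcon
        push Not at hcon
        exact hw (funext hcon)))
      refine ⟨l, ?_⟩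
      convert hl using 1
      simp only [Sum.elim_inl, Sum.elim_inr, mul_add, sum_add_distrib, sum_mul, zero_mul, add_zero,
        mul_assoc]
    · intro c hc
      obtain ⟨l, hl⟩ := hnd c (∑ u, c u * tU u + ∑ u, c u * hU u) 0 0 (Or.inl (by
        by_contra hcon
        push Not at hcon
        exact hc (funext hcon)))
      refine ⟨l, ?_⟩
      convert hl using 1
      simp only [Sum.elim_inl, Sum.elim_inr, add_mul, sum_add_distrib, sum_mul, zero_mul, add_zero,
        ← add_assoc]
      congr 1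
      · congr 1
        · exact sum_congr rfl fun u _ => by ring
        · exact sum_congr rfl fun u _ => by ring
      · exact sum_congr rfl fun u _ => by ring
  have HC := hypG_NC tU tJ B _ gJ hJ gU hU h0 hg hh HA (fun u l => by
    rw [NN_inlr]; rfl) (fun k u => by rw [NN_inrl]; rfl) hnd
  -- translation of the systems
  have eA : ∀ α : prs J → ZMod 2, GdG (fun _ : U => 1)
      (NN (MM tU tJ A B 0) 0 (Sum.elim gU gJ) (Sum.elim tU tJ)) (ext tJ α) ↔
      GA (univ : Finset (U ⊕ J)) (MM tU tJ A B (ext tJ α)) (Sum.elim tU tJ) (Sum.elim gU gJ) := by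
    intro α
    unfold GdG GA
    refine forall_congr' fun x => ?_
    rw [cst_iff]
    simp only [rowG_NN, Pi.zero_apply, zero_mul, add_zero, mem_univ, true_imp_iff]
  have eB : ∀ α : prs J → ZMod 2, GdG (fun _ : U => 1)
      (NN (MM tU tJ A B 0) (Sum.elim tU tJ) (Sum.elim tU tJ) (Sum.elim hU hJ)) (ext tJ α) ↔
      GB (univ : Finset (U ⊕ J)) (MM tU tJ A B (ext tJ α)) (Sum.elim tU tJ) (Sum.elim hU hJ) := by
    intro α
    unfold GdG GB
    refine forall_congr' fun x => ?_
    rw [cst_iff]
    simp only [rowG_NN, mem_univ, true_imp_iff]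
  have eC : ∀ α : prs J → ZMod 2, GdG on3 (NC (NN (MM tU tJ A B 0) 0 (Sum.elim gU gJ)
      (Sum.elim tU tJ)) (Sum.elim tU tJ) (Sum.elim tU tJ + Sum.elim gU gJ + Sum.elim hU hJ))
      (ext tJ α) ↔
      GC (univ : Finset (U ⊕ J)) (MM tU tJ A B (ext tJ α)) (Sum.elim tU tJ) (Sum.elim gU gJ)
        (Sum.elim hU hJ) := by
    intro α
    constructor
    · intro H x y hx hxy
      have h := H (Sum.elim (fun o => o.elim y fun u => x (Sum.inl u)) fun j => x (Sum.inr j)) ?_
      · have hio : ∀ p, (Sum.elim (fun o : Option U => o.elim y fun u => x (Sum.inl u))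
            fun j => x (Sum.inr j)) (io p) = x p := by
          intro p; cases p <;> rfl
        rcases h with h | h
        · refine ⟨⟨0, fun p _ => ?_⟩, ?_⟩
          · rw [← hio p, h]; rfl
          · exact congrFun h (Sum.inl none)
        · refine ⟨⟨1, fun p _ => ?_⟩, ?_⟩
          · rw [← hio p, h, onev3]
          · exact congrFun h (Sum.inl none)
      · have hio : (fun p : U ⊕ J => (Sum.elim (fun o : Option U => o.elim y fun u => x (Sum.inl u))
            fun j => x (Sum.inr j)) (io p)) = x := by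
          funext p; cases p <;> rfl
        have hall : ∀ p : U ⊕ J, rowG (NC (NN (MM tU tJ A B 0) 0 (Sum.elim gU gJ)
            (Sum.elim tU tJ)) (Sum.elim tU tJ)
            (Sum.elim tU tJ + Sum.elim gU gJ + Sum.elim hU hJ)) (ext tJ α)
            (Sum.elim (fun o : Option U => o.elim y fun u => x (Sum.inl u))
            fun j => x (Sum.inr j)) (io p) = 0 := by
          intro p
          rw [rowG_NC, hio, rowG_NN, hx]
          have := hxy p (mem_univ p)
          simpa using this
        intro k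
        rcases k with (_ | u) | j
        · rw [rowG_NC_n, hio, hx]
        · exact hall (Sum.inl u)
        · exact hall (Sum.inr j)
    · intro H x hx
      have h1 : dt univ (Sum.elim tU tJ) (fun p => x (io p)) = 0 := by
        have := hx (Sum.inl none)
        rwa [rowG_NC_n] at this
      obtain ⟨⟨c, hc⟩, hy⟩ := H (fun p => x (io p)) (x (Sum.inl none)) h1 (by
        intro p _
        have h2 := hx (io p)
        rw [rowG_NC, rowG_NN, h1] at h2
        simpa using h2)
      have hc2 : c = 0 ∨ c = 1 := zc c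
      rcases hc2 with rfl | rfl
      · left
        funext k
        rcases k with (_ | u) | j
        · exact hy
        · exact hc (Sum.inl u) (mem_univ _)
        · exact hc (Sum.inr j) (mem_univ _)
      · right
        funext k
        rcases k with (_ | u) | j
        · exact hy
        · exact hc (Sum.inl u) (mem_univ _)
        · exact hc (Sum.inr j) (mem_univ _)
  -- the three laws
  have lA := hV U J (fun _ => 1) _ tJ gJ tJ (by omega) HA
  have lB := hV U J (fun _ => 1) _ tJ tJ hJ (by omega) HB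
  have lC := hV (Option U) J on3 _ tJ gJ tJ (by rw [Fintype.card_option]; omega) HC
  simp only [eA] at lA
  simp only [eB] at lB
  simp only [eC] at lC
  -- counting
  set PA : (prs J → ZMod 2) → Prop := fun α =>
    GA (univ : Finset (U ⊕ J)) (MM tU tJ A B (ext tJ α)) (Sum.elim tU tJ) (Sum.elim gU gJ) with hPA
  set PB : (prs J → ZMod 2) → Prop := fun α =>
    GB (univ : Finset (U ⊕ J)) (MM tU tJ A B (ext tJ α)) (Sum.elim tU tJ) (Sum.elim hU hJ) with hPB
  have hcount : (univ.filter fun α => PA α).card + (univ.filter fun α => PB α).card =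
      2 * (univ.filter fun α => PA α ∧ PB α).card +
        (univ.filter fun α => GC (univ : Finset (U ⊕ J)) (MM tU tJ A B (ext tJ α))
          (Sum.elim tU tJ) (Sum.elim gU gJ) (Sum.elim hU hJ)).card := by
    simp only [card_filter]
    rw [← sum_add_distrib, mul_sum, ← sum_add_distrib]
    refine sum_congr rfl fun α _ => ?_
    have hx := hX _ _ _ _ _ _ (hyp α)
    by_cases h1 : PA α <;> by_cases h2 : PB α
    · have h3 : ¬ GC (univ : Finset (U ⊕ J)) (MM tU tJ A B (ext tJ α))
          (Sum.elim tU tJ) (Sum.elim gU gJ) (Sum.elim hU hJ) := by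
        rw [hx]; simp only [not_not]; exact ⟨fun _ => h2, fun _ => h1⟩
      simp [h1, h2, h3]
    · have h3 : GC (univ : Finset (U ⊕ J)) (MM tU tJ A B (ext tJ α))
          (Sum.elim tU tJ) (Sum.elim gU gJ) (Sum.elim hU hJ) := by
        rw [hx]; intro h; exact h2 (h.1 h1)
      simp [h1, h2, h3]
    · have h3 : GC (univ : Finset (U ⊕ J)) (MM tU tJ A B (ext tJ α))
          (Sum.elim tU tJ) (Sum.elim gU gJ) (Sum.elim hU hJ) := by
        rw [hx]; intro h; exact h1 (h.2 h2)
      simp [h1, h2, h3]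
    · have h3 : ¬ GC (univ : Finset (U ⊕ J)) (MM tU tJ A B (ext tJ α))
          (Sum.elim tU tJ) (Sum.elim gU gJ) (Sum.elim hU hJ) := by
        rw [hx]; simp only [not_not]; exact ⟨fun h => absurd h h1, fun h => absurd h h2⟩
      simp [h1, h2, h3]
  have hcR : ((univ.filter fun α => PA α).card : ℝ) + ((univ.filter fun α => PB α).card : ℝ) =
      2 * ((univ.filter fun α => PA α ∧ PB α).card : ℝ) +
        ((univ.filter fun α => GC (univ : Finset (U ⊕ J)) (MM tU tJ A B (ext tJ α))
          (Sum.elim tU tJ) (Sum.elim gU gJ) (Sum.elim hU hJ)).card : ℝ) := by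
    exact_mod_cast hcount
  set T : ℝ := 2 ^ (prs J).card with hT
  have hT0 : 0 < T := by positivity
  rw [abs_le] at lA lB lC ⊢
  have e1 : ((univ.filter fun α => PA α ∧ PB α).card : ℝ) / T =
      (((univ.filter fun α => PA α).card : ℝ) / T + ((univ.filter fun α => PB α).card : ℝ) / T -
      ((univ.filter fun α => GC (univ : Finset (U ⊕ J)) (MM tU tJ A B (ext tJ α))
          (Sum.elim tU tJ) (Sum.elim gU gJ) (Sum.elim hU hJ)).card : ℝ) / T) / 2 := by
    field_simp
    linarith
  rw [e1]
  constructor <;> linarith [lA.1, lA.2, lB.1, lB.2, lC.1, lC.2]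

end Pool.Agent.N848.AW
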